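import Mathlib

open Cardinal Ordinal Order Set

universe u

namespace Pool.Agent.Results.MP_04d4af_lc.CyclicColouring

/-- The polarized partition relation
`(α₁, α₂, α₃) → (β₁, β₂, β₃)^{1,1,1}_2`: for every colouring `c : α₁ × α₂ × α₃ → 2` there are a
colour `k` and sets `H₁ ⊆ α₁`, `H₂ ⊆ α₂`, `H₃ ⊆ α₃` of cardinalities `β₁`, `β₂`, `β₃` such that
`c` is constantly `k` on `H₁ × H₂ × H₃`. Here the type `α.ord.ToType` is the canonical
well-ordered set of order type the initial ordinal of the cardinal `α`. -/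
def Polarized (α₁ α₂ α₃ β₁ β₂ β₃ : Cardinal.{u}) : Prop :=
  ∀ c : α₁.ord.ToType → α₂.ord.ToType → α₃.ord.ToType → Fin 2,
    ∃ (k : Fin 2) (H₁ : Set α₁.ord.ToType) (H₂ : Set α₂.ord.ToType) (H₃ : Set α₃.ord.ToType),
      #H₁ = β₁ ∧ #H₂ = β₂ ∧ #H₃ = β₃ ∧ ∀ x ∈ H₁, ∀ y ∈ H₂, ∀ z ∈ H₃, c x y z = k

section Transitive

variable {X : Type u} [LinearOrder X]

/-- One step: `y < x` and the index of `y` in the enumeration of the predecessors of `x` is at
most `ν`. -/
def Step (E : X → X → Ordinal.{u}) (ν : Ordinal.{u}) (y x : X) : Prop := y < x ∧ E y x ≤ ν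

/-- The minimax path function attached to `E`. -/
noncomputable def d (E : X → X → Ordinal.{u}) (y x : X) : Ordinal.{u} :=
  sInf {ν | Relation.TransGen (Step E ν) y x}

theorem exists_enum (κ : Cardinal.{u}) (h : ∀ x : X, #(Iio x) ≤ κ) :
    ∃ E : X → X → Ordinal.{u}, ∀ x, (∀ y < x, E y x < κ.ord) ∧ InjOn (fun y => E y x) (Iio x) := by
  classical
  have key : ∀ x : X, Nonempty (Iio x ↪ κ.ord.ToType) := by
    intro x
    rw [← Cardinal.le_def]
    simpa using h x
  refine ⟨fun y x => if hy : y < x then typein (α := κ.ord.ToType) (· < ·) ((key x).some ⟨y, hy⟩)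
    else 0, fun x => ⟨?_, ?_⟩⟩
  · intro y hy
    simp only [hy, dif_pos]
    simpa using typein_lt_type (α := κ.ord.ToType) (· < ·) ((key x).some ⟨y, hy⟩)
  · intro y hy z hz hyz
    simp only [mem_Iio] at hy hz
    simp only [hy, hz, dif_pos] at hyz
    have := typein_injective (α := κ.ord.ToType) (· < ·) hyz
    exact congrArg Subtype.val ((key x).some.injective this)

variable (E : X → X → Ordinal.{u})

theorem lt_of_transGen {ν : Ordinal.{u}} {y x : X} (h : Relation.TransGen (Step E ν) y x) :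
    y < x := by
  induction h with
  | single h => exact h.1
  | tail _ h ih => exact ih.trans h.1

theorem transGen_mono {ν ν' : Ordinal.{u}} (hν : ν ≤ ν') {y x : X}
    (h : Relation.TransGen (Step E ν) y x) : Relation.TransGen (Step E ν') y x := by
  induction h with
  | single h => exact Relation.TransGen.single ⟨h.1, h.2.trans hν⟩
  | tail _ h ih => exact ih.tail ⟨h.1, h.2.trans hν⟩

theorem transGen_d {y x : X} (h : y < x) : Relation.TransGen (Step E (d E y x)) y x := by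
  have : (sInf {ν | Relation.TransGen (Step E ν) y x}) ∈ {ν | Relation.TransGen (Step E ν) y x} :=
    csInf_mem ⟨E y x, Relation.TransGen.single ⟨h, le_rfl⟩⟩
  exact this

theorem d_le {ν : Ordinal.{u}} {y x : X} (h : Relation.TransGen (Step E ν) y x) :
    d E y x ≤ ν := csInf_le' h

theorem d_lt {κ : Cardinal.{u}} {y x : X} (h : y < x) (hE : E y x < κ.ord) :
    d E y x < κ.ord :=
  (d_le E (Relation.TransGen.single ⟨h, le_rfl⟩)).trans_lt hE

theorem d_trans {x y z : X} (hxy : x < y) (hyz : y < z) :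
    d E x z ≤ max (d E x y) (d E y z) :=
  d_le E ((transGen_mono E (le_max_left _ _) (transGen_d E hxy)).trans
    (transGen_mono E (le_max_right _ _) (transGen_d E hyz)))

theorem pred_subset (ν : Ordinal.{u}) (x : X) :
    {y | Relation.TransGen (Step E ν) y x} ⊆
      ⋃ z ∈ {z | Step E ν z x}, insert z {y | Relation.TransGen (Step E ν) y z} := by
  intro y hy
  simp only [mem_iUnion, mem_ofPred_eq, exists_prop, mem_insert_iff] at hy ⊢
  cases hy with
  | single h => exact ⟨y, h, Or.inl rfl⟩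
  | tail h h' => exact ⟨_, h', Or.inr h⟩

theorem card_step_le (hE : ∀ x, InjOn (fun y => E y x) (Iio x))
    (ν : Ordinal.{u}) (x : X) : #{z | Step E ν z x} ≤ (succ ν).card := by
  have h1 : Cardinal.lift.{u + 1} #{z | Step E ν z x} ≤ Cardinal.lift.{u} #(Iio (succ ν)) := by
    let f : {z | Step E ν z x} → Iio (succ ν) := fun z => ⟨E z.1 x, lt_succ_of_le z.2.2⟩
    refine Cardinal.lift_mk_le_lift_mk_of_injective (f := f) ?_
    intro a b hab
    have h2 : E a.1 x = E b.1 x := congrArg (fun t : Iio (succ ν) => t.1) hab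
    exact Subtype.ext (hE x a.2.1 b.2.1 h2)
  rw [Cardinal.mk_Iio_ordinal, Cardinal.lift_lift] at h1
  exact Cardinal.lift_le.1 h1

variable [WellFoundedLT X]

theorem card_pred_lt {κ : Cardinal.{u}} (hκ : ℵ₀ ≤ κ)
    (hE : ∀ x, InjOn (fun y => E y x) (Iio x)) {ν : Ordinal.{u}} (hν : ν < κ.ord) (x : X) :
    #{y | Relation.TransGen (Step E ν) y x} < κ := by
  have hs : (succ ν).card < κ := by
    rw [← lt_ord]
    exact (isSuccLimit_ord hκ).succ_lt hν
  rcases hκ.eq_or_lt with rfl | hκ'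
  · -- the countable case: finite branching and descending sequences of ordinals
    induction x using WellFoundedLT.induction with
    | ind x ih =>
      have hfin : {z | Step E ν z x}.Finite := by
        rw [← Cardinal.lt_aleph0_iff_set_finite]
        exact (card_step_le E hE ν x).trans_lt hs
      rw [Cardinal.lt_aleph0_iff_set_finite]
      refine Set.Finite.subset (hfin.biUnion fun z hz => ?_) (pred_subset E ν x)
      exact (Cardinal.lt_aleph0_iff_set_finite.1 (ih z hz.1)).insert z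
  · -- the uncountable case
    have hμ : max ℵ₀ (succ ν).card < κ := max_lt hκ' hs
    refine lt_of_le_of_lt ?_ hμ
    set μ := max ℵ₀ (succ ν).card with hμdef
    have hμ0 : ℵ₀ ≤ μ := le_max_left _ _
    induction x using WellFoundedLT.induction with
    | ind x ih =>
      refine (Cardinal.mk_le_mk_of_subset (pred_subset E ν x)).trans ?_
      refine (Cardinal.mk_biUnion_le _ _).trans ?_
      calc #{z | Step E ν z x} * (⨆ z : {z | Step E ν z x},
              #(insert z.1 {y | Relation.TransGen (Step E ν) y z.1} : Set X))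
          ≤ μ * μ := by
            refine mul_le_mul' ((card_step_le E hE ν x).trans (le_max_right _ _)) ?_
            refine ciSup_le' fun z => ?_
            refine (Cardinal.mk_insert_le).trans ?_
            exact Cardinal.add_le_of_le hμ0 (ih z.1 z.2.1) (Cardinal.one_le_aleph0.trans hμ0)
        _ = μ := Cardinal.mul_eq_self hμ0

/-- Normality: a set of `κ` many predecessors of `x` contains points of large index. -/
theorem exists_big {κ : Cardinal.{u}} (hκ : ℵ₀ ≤ κ)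
    (hE : ∀ x, InjOn (fun y => E y x) (Iio x)) {ν : Ordinal.{u}} (hν : ν < κ.ord) {x : X}
    {H : Set X} (hH : κ ≤ #H) (hx : H ⊆ Iio x) : ∃ y ∈ H, ν < d E y x := by
  by_contra hcon
  push Not at hcon
  have hsub : H ⊆ {y | Relation.TransGen (Step E ν) y x} := fun y hy =>
    transGen_mono E (hcon y hy) (transGen_d E (hx hy))
  exact absurd (card_pred_lt E hκ hE hν x)
    (not_lt.2 (hH.trans (Cardinal.mk_le_mk_of_subset hsub)))

end Transitive

section Thresholds

variable {X : Type u} [LinearOrder X] [WellFoundedLT X]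

/-- `δ` is the point where `H` reaches cardinality `κ`, and `H` stops there. -/
def Thr (κ : Cardinal.{u}) (H : Set X) (δ : X) : Prop :=
  H ⊆ Iio δ ∧ κ ≤ #H ∧ ∀ x < δ, #(H ∩ Iio x : Set X) < κ

theorem exists_thr {κ : Cardinal.{u}} (hκ : ℵ₀ ≤ κ) (h : ∀ x : X, #(Iio x) ≤ κ) (hX : κ < #X)
    (H : Set X) (hH : #H = κ) : ∃ δ : X, ∃ H' ⊆ H, Thr κ H' δ := by
  have hb : ∃ b : X, ∀ y ∈ H, y < b := by
    by_contra hcon
    push Not at hcon
    have huniv : (univ : Set X) ⊆ ⋃ y ∈ H, Iic y := by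
      intro b _
      obtain ⟨y, hy, hby⟩ := hcon b
      simp only [mem_iUnion, mem_Iic, exists_prop]
      exact ⟨y, hy, hby⟩
    have h1 : #X ≤ κ := by
      rw [← Cardinal.mk_univ]
      refine (Cardinal.mk_le_mk_of_subset huniv).trans ?_
      refine (Cardinal.mk_biUnion_le _ _).trans ?_
      calc #H * (⨆ y : H, #(Iic y.1)) ≤ κ * κ := by
            refine mul_le_mul' hH.le ?_
            refine ciSup_le' fun y => ?_
            rw [← Iio_insert]
            refine (Cardinal.mk_insert_le).trans ?_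
            exact Cardinal.add_le_of_le hκ (h y.1) (Cardinal.one_le_aleph0.trans hκ)
        _ = κ := Cardinal.mul_eq_self hκ
    exact absurd hX (not_lt.2 h1)
  obtain ⟨b, hb⟩ := hb
  have hne : {x : X | κ ≤ #(H ∩ Iio x : Set X)}.Nonempty := by
    refine ⟨b, ?_⟩
    have : H ∩ Iio b = H := inter_eq_left.2 hb
    simp only [mem_ofPred_eq, this, hH, le_refl]
  let δ := WellFounded.min (wellFounded_lt (α := X)) {x : X | κ ≤ #(H ∩ Iio x : Set X)} hne
  have hδ : κ ≤ #(H ∩ Iio δ : Set X) :=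
    WellFounded.min_mem (wellFounded_lt (α := X)) {x : X | κ ≤ #(H ∩ Iio x : Set X)} hne
  refine ⟨δ, H ∩ Iio δ, inter_subset_left, inter_subset_right, hδ, ?_⟩
  intro x hx
  refine lt_of_le_of_lt (Cardinal.mk_le_mk_of_subset
    (inter_subset_inter_left (Iio x) inter_subset_left)) ?_
  by_contra hcon
  exact WellFounded.not_lt_min (wellFounded_lt (α := X)) {x : X | κ ≤ #(H ∩ Iio x : Set X)}
    (not_lt.1 hcon) hx

omit [WellFoundedLT X] in
theorem Thr.exists_gt {κ : Cardinal.{u}} (hκ : ℵ₀ ≤ κ) {H : Set X} {δ x : X} (h : Thr κ H δ)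
    (hx : x < δ) : ∃ y ∈ H, x < y := by
  by_contra hcon
  push Not at hcon
  have hsub : H ⊆ insert x (H ∩ Iio x) := by
    intro y hy
    rcases (hcon y hy).eq_or_lt with h1 | h1
    · exact Or.inl h1
    · exact Or.inr ⟨hy, h1⟩
  have h1 : κ ≤ #(H ∩ Iio x : Set X) + 1 :=
    h.2.1.trans ((Cardinal.mk_le_mk_of_subset hsub).trans Cardinal.mk_insert_le)
  have h2 : #(H ∩ Iio x : Set X) + 1 < κ :=
    Cardinal.add_lt_of_lt hκ (h.2.2 x hx) (Cardinal.one_lt_aleph0.trans_le hκ)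
  exact absurd h2 (not_lt.2 h1)

end Thresholds

section Colouring

variable {X : Type u} [LinearOrder X] (E : X → X → Ordinal.{u})

/-- The order in which `m` sees its predecessors. -/
def Sees (m a b : X) : Prop := d E a m < d E b m ∨ (d E a m = d E b m ∧ a < b)

open Classical in
/-- The cyclic colouring. -/
def F (x y z : X) : Prop :=
  if y < x ∧ z < x then Sees E x y z
  else if z < y ∧ x < y then Sees E y z x
  else if x < z ∧ y < z then Sees E z x y
  else False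

theorem F_max {x y z : X} (h1 : y < x) (h2 : z < x) : F E x y z ↔ Sees E x y z := by
  unfold F
  rw [if_pos ⟨h1, h2⟩]

theorem F_cyc (x y z : X) : F E x y z ↔ F E y z x := by
  unfold F
  by_cases h1 : y < x ∧ z < x
  · have h2 : ¬ (z < y ∧ x < y) := fun h => lt_asymm h.2 h1.1
    have h3 : ¬ (x < z ∧ y < z) := fun h => lt_asymm h.1 h1.2
    have h1' : y < x ∧ z < x := h1
    rw [if_pos h1, if_neg h2, if_neg (fun h => h3 ⟨h.1, h.2⟩), if_pos h1']
  · by_cases h2 : z < y ∧ x < y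
    · rw [if_neg h1, if_pos h2, if_pos h2]
    · by_cases h3 : x < z ∧ y < z
      · rw [if_neg h1, if_neg h2, if_pos h3, if_neg h2, if_pos h3]
      · rw [if_neg h1, if_neg h2, if_neg h3, if_neg h2, if_neg h3, if_neg h1]

/-- Both colours occur on `A × B × C`. -/
def Both (A B C : Set X) : Prop :=
  (∃ x ∈ A, ∃ y ∈ B, ∃ z ∈ C, F E x y z) ∧ (∃ x ∈ A, ∃ y ∈ B, ∃ z ∈ C, ¬ F E x y z)

theorem Both.rotate {A B C : Set X} (h : Both E A B C) : Both E B C A := by
  obtain ⟨⟨x, hx, y, hy, z, hz, h1⟩, ⟨x', hx', y', hy', z', hz', h2⟩⟩ := h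
  exact ⟨⟨y, hy, z, hz, x, hx, (F_cyc E x y z).1 h1⟩,
    ⟨y', hy', z', hz', x', hx', fun h => h2 ((F_cyc E x' y' z').2 h)⟩⟩

/-- No infinite sequence with decreasing values of `d`. -/
theorem no_descent (Q : X → X → Prop) (h : ∀ x y, Q x y → ∃ z, Q y z ∧ d E y z < d E x y)
    (x y : X) : ¬ Q x y := by
  have key : ∀ o : Ordinal.{u}, ∀ x y : X, d E x y = o → ¬ Q x y := by
    intro o
    induction o using WellFoundedLT.induction with
    | ind o ih =>
      intro x y hxy hQ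
      obtain ⟨z, hz, hlt⟩ := h x y hQ
      exact ih (d E y z) (hxy ▸ hlt) y z rfl hz
  exact key _ x y rfl

theorem descent_step {x y z : X} (hxy : x < y) (hyz : y < z) (h : d E y z < d E x z) :
    d E y z < d E x y := by
  have h1 := d_trans E hxy hyz
  rcases le_max_iff.1 h1 with h2 | h2
  · exact h.trans_le h2
  · exact absurd h (not_lt.2 h2)

variable [WellFoundedLT X]

theorem both_of_unique_max {κ : Cardinal.{u}} (hκ : ℵ₀ ≤ κ)
    (hE : ∀ x, InjOn (fun y => E y x) (Iio x)) (hE' : ∀ x, ∀ y < x, E y x < κ.ord)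
    {A B C : Set X} {a b c : X} (hA : Thr κ A a) (hB : Thr κ B b) (hC : Thr κ C c)
    (hba : b < a) (hca : c < a) : Both E A B C := by
  obtain ⟨x, hx, hmx⟩ := hA.exists_gt hκ (max_lt hba hca)
  have hBx : B ⊆ Iio x := fun y hy => (hB.1 hy).trans ((le_max_left _ _).trans_lt hmx)
  have hCx : C ⊆ Iio x := fun y hy => (hC.1 hy).trans ((le_max_right _ _).trans_lt hmx)
  have hpos : (0 : Ordinal.{u}) < κ.ord := by
    rw [← Cardinal.ord_zero, Cardinal.ord_lt_ord]
    exact Cardinal.aleph0_pos.trans_le hκ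
  obtain ⟨y₀, hy₀, -⟩ := exists_big E hκ hE hpos hB.2.1 hBx
  obtain ⟨z₀, hz₀, -⟩ := exists_big E hκ hE hpos hC.2.1 hCx
  obtain ⟨z, hz, hz'⟩ := exists_big E hκ hE (d_lt E (hBx hy₀) (hE' x y₀ (hBx hy₀))) hC.2.1 hCx
  obtain ⟨y, hy, hy'⟩ := exists_big E hκ hE (d_lt E (hCx hz₀) (hE' x z₀ (hCx hz₀))) hB.2.1 hBx
  refine ⟨⟨x, hx, y₀, hy₀, z, hz, ?_⟩, ⟨x, hx, y, hy, z₀, hz₀, ?_⟩⟩
  · rw [F_max E (hBx hy₀) (hCx hz)]
    exact Or.inl hz'
  · rw [F_max E (hBx hy) (hCx hz₀)]
    rintro (h | h)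
    · exact lt_asymm h hy'
    · exact absurd h.1 hy'.ne'

theorem both_of_two_max {κ : Cardinal.{u}} (hκ : ℵ₀ ≤ κ)
    (hE : ∀ x, InjOn (fun y => E y x) (Iio x)) (hE' : ∀ x, ∀ y < x, E y x < κ.ord)
    {A B C : Set X} {a c : X} (hA : Thr κ A a) (hB : Thr κ B a) (hC : Thr κ C c)
    (hca : c < a) : Both E A B C := by
  constructor
  · -- `x > y ≥ c`
    obtain ⟨y, hy, hcy⟩ := hB.exists_gt hκ hca
    obtain ⟨x, hx, hyx⟩ := hA.exists_gt hκ (hB.1 hy)
    have hCx : C ⊆ Iio x := fun z hz => ((hC.1 hz).trans hcy).trans hyx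
    obtain ⟨z, hz, hz'⟩ := exists_big E hκ hE (d_lt E hyx (hE' x y hyx)) hC.2.1 hCx
    refine ⟨x, hx, y, hy, z, hz, ?_⟩
    rw [F_max E hyx (hCx hz)]
    exact Or.inl hz'
  · -- `y > x ≥ c`
    obtain ⟨x, hx, hcx⟩ := hA.exists_gt hκ hca
    obtain ⟨y, hy, hxy⟩ := hB.exists_gt hκ (hA.1 hx)
    have hCy : C ⊆ Iio y := fun z hz => ((hC.1 hz).trans hcx).trans hxy
    obtain ⟨z, hz, hz'⟩ := exists_big E hκ hE (d_lt E hxy (hE' y x hxy)) hC.2.1 hCy
    refine ⟨x, hx, y, hy, z, hz, ?_⟩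
    rw [F_cyc, F_max E (hCy hz) hxy]
    rintro (h | h)
    · exact lt_asymm h hz'
    · exact absurd h.1 hz'.ne'

omit [WellFoundedLT X] in
theorem both_of_all_eq {κ : Cardinal.{u}} (hκ : ℵ₀ ≤ κ)
    {A B C : Set X} {a : X} (hA : Thr κ A a) (hB : Thr κ B a) (hC : Thr κ C a) :
    Both E A B C := by
  have hne : A.Nonempty := by
    rw [← Set.nonempty_coe_sort, ← Cardinal.mk_ne_zero_iff]
    exact (Cardinal.aleph0_pos.trans_le (hκ.trans hA.2.1)).ne'
  obtain ⟨x₀, hx₀⟩ := hne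
  constructor
  · -- suppose colour 1 does not occur
    by_contra hcon
    push Not at hcon
    obtain ⟨y₀, hy₀, hxy₀⟩ := hB.exists_gt hκ (hA.1 hx₀)
    refine no_descent E (fun x y => x < y ∧ ((x ∈ A ∧ y ∈ B) ∨ (x ∈ B ∧ y ∈ C) ∨
      (x ∈ C ∧ y ∈ A))) ?_ x₀ y₀ ⟨hxy₀, Or.inl ⟨hx₀, hy₀⟩⟩
    rintro x y ⟨hxy, h | h | h⟩
    · obtain ⟨z, hz, hyz⟩ := hC.exists_gt hκ (hB.1 h.2)
      refine ⟨z, ⟨hyz, Or.inr (Or.inl ⟨h.2, hz⟩)⟩, descent_step E hxy hyz ?_⟩
      have h1 := hcon x h.1 y h.2 z hz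
      rw [F_cyc, F_cyc, F_max E (hxy.trans hyz) hyz] at h1
      unfold Sees at h1
      push Not at h1
      exact h1.1.lt_of_ne fun he => absurd (h1.2 he.symm) (not_le.2 hxy)
    · obtain ⟨z, hz, hyz⟩ := hA.exists_gt hκ (hC.1 h.2)
      refine ⟨z, ⟨hyz, Or.inr (Or.inr ⟨h.2, hz⟩)⟩, descent_step E hxy hyz ?_⟩
      have h1 := hcon z hz x h.1 y h.2
      rw [F_max E (hxy.trans hyz) hyz] at h1
      unfold Sees at h1
      push Not at h1
      exact h1.1.lt_of_ne fun he => absurd (h1.2 he.symm) (not_le.2 hxy)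
    · obtain ⟨z, hz, hyz⟩ := hB.exists_gt hκ (hA.1 h.2)
      refine ⟨z, ⟨hyz, Or.inl ⟨h.2, hz⟩⟩, descent_step E hxy hyz ?_⟩
      have h1 := hcon y h.2 z hz x h.1
      rw [F_cyc, F_max E (hxy.trans hyz) hyz] at h1
      unfold Sees at h1
      push Not at h1
      exact h1.1.lt_of_ne fun he => absurd (h1.2 he.symm) (not_le.2 hxy)
  · -- suppose colour 0 does not occur
    by_contra hcon
    push Not at hcon
    obtain ⟨y₀, hy₀, hxy₀⟩ := hC.exists_gt hκ (hA.1 hx₀)
    refine no_descent E (fun x y => x < y ∧ ((x ∈ A ∧ y ∈ C) ∨ (x ∈ C ∧ y ∈ B) ∨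
      (x ∈ B ∧ y ∈ A))) ?_ x₀ y₀ ⟨hxy₀, Or.inl ⟨hx₀, hy₀⟩⟩
    rintro x y ⟨hxy, h | h | h⟩
    · obtain ⟨z, hz, hyz⟩ := hB.exists_gt hκ (hC.1 h.2)
      refine ⟨z, ⟨hyz, Or.inr (Or.inl ⟨h.2, hz⟩)⟩, descent_step E hxy hyz ?_⟩
      have h1 := hcon x h.1 z hz y h.2
      rw [F_cyc, F_max E hyz (hxy.trans hyz)] at h1
      exact h1.resolve_right fun he => lt_asymm hxy he.2
    · obtain ⟨z, hz, hyz⟩ := hA.exists_gt hκ (hB.1 h.2)
      refine ⟨z, ⟨hyz, Or.inr (Or.inr ⟨h.2, hz⟩)⟩, descent_step E hxy hyz ?_⟩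
      have h1 := hcon z hz y h.2 x h.1
      rw [F_max E hyz (hxy.trans hyz)] at h1
      exact h1.resolve_right fun he => lt_asymm hxy he.2
    · obtain ⟨z, hz, hyz⟩ := hC.exists_gt hκ (hA.1 h.2)
      refine ⟨z, ⟨hyz, Or.inl ⟨h.2, hz⟩⟩, descent_step E hxy hyz ?_⟩
      have h1 := hcon y h.2 x h.1 z hz
      rw [F_cyc, F_cyc, F_max E hyz (hxy.trans hyz)] at h1
      exact h1.resolve_right fun he => lt_asymm hxy he.2

theorem both {κ : Cardinal.{u}} (hκ : ℵ₀ ≤ κ)
    (hE : ∀ x, InjOn (fun y => E y x) (Iio x)) (hE' : ∀ x, ∀ y < x, E y x < κ.ord)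
    {A B C : Set X} {a b c : X} (hA : Thr κ A a) (hB : Thr κ B b) (hC : Thr κ C c) :
    Both E A B C := by
  rcases lt_trichotomy a b with hab | rfl | hab
  · rcases lt_trichotomy b c with hbc | rfl | hbc
    · exact ((both_of_unique_max E hκ hE hE' hC hA hB (hab.trans hbc) hbc).rotate)
    · exact ((both_of_two_max E hκ hE hE' hB hC hA hab).rotate).rotate
    · exact ((both_of_unique_max E hκ hE hE' hB hC hA hbc hab).rotate).rotate
  · rcases lt_trichotomy a c with hac | rfl | hac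
    · exact (both_of_unique_max E hκ hE hE' hC hA hB hac hac).rotate
    · exact both_of_all_eq E hκ hA hB hC
    · exact both_of_two_max E hκ hE hE' hA hB hC hac
  · rcases lt_trichotomy a c with hac | rfl | hac
    · exact (both_of_unique_max E hκ hE hE' hC hA hB hac (hab.trans hac)).rotate
    · exact (both_of_two_max E hκ hE hE' hC hA hB hab).rotate
    · exact both_of_unique_max E hκ hE hE' hA hB hC hab hac

end Colouring

/-- For every infinite cardinal `κ`, the relation `(κ⁺, κ⁺, κ⁺) → (κ, κ, κ)^{1,1,1}_2` fails. -/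
theorem result (κ : Cardinal.{u}) (hκ : ℵ₀ ≤ κ) :
    ¬ Polarized (succ κ) (succ κ) (succ κ) κ κ κ := by
  classical
  intro hP
  have hI : ∀ x : (succ κ).ord.ToType, #(Iio x) ≤ κ := fun x => by
    have h := Cardinal.mk_Iio_lt x (by simp)
    rw [Cardinal.mk_ord_toType] at h
    exact lt_succ_iff.1 h
  have hX : κ < #(succ κ).ord.ToType := by
    rw [Cardinal.mk_ord_toType]
    exact lt_succ κ
  obtain ⟨E, hEE⟩ := exists_enum κ hI
  obtain ⟨k, H₁, H₂, H₃, h₁, h₂, h₃, hk⟩ := hP fun x y z => if F E x y z then 1 else 0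
  obtain ⟨a, A, hAH, hA⟩ := exists_thr hκ hI hX H₁ h₁
  obtain ⟨b, B, hBH, hB⟩ := exists_thr hκ hI hX H₂ h₂
  obtain ⟨c, C, hCH, hC⟩ := exists_thr hκ hI hX H₃ h₃
  obtain ⟨⟨x, hx, y, hy, z, hz, h⟩, ⟨x', hx', y', hy', z', hz', h'⟩⟩ :=
    both E hκ (fun x => (hEE x).2) (fun x => (hEE x).1) hA hB hC
  have e1 := hk x (hAH hx) y (hBH hy) z (hCH hz)
  have e2 := hk x' (hAH hx') y' (hBH hy') z' (hCH hz')
  rw [if_pos h] at e1
  rw [if_neg h'] at e2
  rw [← e2] at e1
  exact absurd e1 (by decide)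

end Pool.Agent.Results.MP_04d4af_lc.CyclicColouring
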